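import Pool.Agent.Run7.h693.RZ.Defs

/-! # RZ, pieces COV and BCL (helper228) -/

set_option autoImplicit false

open MeasureTheory

namespace Pool.Agent.Run7.h228.RZ

open Pool.Agent.Run7.h693.RZ

/-- **COV** -/
theorem t_COV : S_COV := by
  intro n N
  have hS : IsCompact {z : Fin n → ℂ | nrm z = 1} := by
    refine (isCompact_Bal n 1).of_isClosed_subset ?_ ?_
    · exact isClosed_eq (continuous_nrm n) continuous_const
    · intro z hz
      exact le_of_eq hz
  obtain ⟨H, hH, hcov⟩ := hS.elim_nhds_subcover (fun w => {z | 3 / 4 < ‖ip z w‖ ^ N}) (by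
    intro w hw
    refine IsOpen.mem_nhds ?_ ?_
    · exact isOpen_lt continuous_const ((continuous_ip w).norm.pow N)
    · have h1 : nrm w = 1 := hw
      show 3 / 4 < ‖ip w w‖ ^ N
      rw [ip_self, h1]
      norm_num)
  refine ⟨H, hH, fun z hz => ?_⟩
  have h1 := hcov (show z ∈ {z : Fin n → ℂ | nrm z = 1} from hz)
  rw [Set.mem_iUnion₂] at h1
  obtain ⟨w, hw, h2⟩ := h1
  exact ⟨w, hw, le_of_lt h2⟩

/-- **BCL** -/
theorem t_BCL : S_BCL := by
  intro n Z hZ hv
  have h1 : ∀ N : ℕ, ∀ᵐ z ∂(volume : Measure (Fin n → ℂ)), z ∈ Bal n N →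
      ∀ᶠ k in Filter.atTop, z ∉ Z k := by
    intro N
    rw [← ae_restrict_iff' (measurableSet_Bal n N)]
    apply ae_eventually_notMem
    have h2 : ∀ k, (volume.restrict (Bal n N)) (Z k) ≤
        ENNReal.ofReal ((1 / 2) ^ k) * volume (Bal n N) := by
      intro k
      rw [Measure.restrict_apply (hZ k)]
      exact hv k N
    have h3 : ∑' k : ℕ, ENNReal.ofReal ((1 / 2) ^ k) ≠ ⊤ := by
      rw [← ENNReal.ofReal_tsum_of_nonneg (fun k => by positivity) summable_geometric_two]
      exact ENNReal.ofReal_ne_top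
    refine ne_top_of_le_ne_top ?_ (ENNReal.tsum_le_tsum h2)
    rw [ENNReal.tsum_mul_right]
    exact ENNReal.mul_ne_top h3 (volume_Bal_lt_top n N).ne
  rw [← ae_all_iff] at h1
  filter_upwards [h1] with z hz
  obtain ⟨N, hN⟩ := exists_nat_ge (nrm z)
  exact hz N hN

end Pool.Agent.Run7.h228.RZ
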