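import Pool.Agent.Run7.h693.RZ.Defs

/-! # RZ, piece INV (helper228), after `Pool.Agent.Results.MP_2e8a17_an.RadialLimits.approx_inv` -/

set_option autoImplicit false

open Polynomial

namespace Pool.Agent.Run7.h228.RZ

open Pool.Agent.Run7.h693.RZ

/-- **INV** -/
theorem t_INV : S_INV := by
  intro K B T hK hK1 hB hT hlow ε hε
  have : CompactSpace K := isCompact_iff_compactSpace.1 hK
  set A := (polynomialFunctions K).topologicalClosure with hA
  have : CompleteSpace A := (Subalgebra.isClosed_topologicalClosure _).completeSpace_coe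
  have hX : (X : ℂ[X]).toContinuousMapOn K ∈ A := by
    apply Subalgebra.le_topologicalClosure
    exact ⟨X, by simp, rfl⟩
  set x : A := ⟨(X : ℂ[X]).toContinuousMapOn K, hX⟩ with hx
  have hinv : ∀ (l : ℝ), ∀ v : Aˣ, (v : A) = 1 - (l : ℂ) • x →
      ∀ z : K, ((v⁻¹ : Aˣ) : A).1 z = (1 - (l : ℂ) * (z : ℂ))⁻¹ := by
    intro l v hv z
    have h1 : (v : A) * ((v⁻¹ : Aˣ) : A) = 1 := v.mul_inv
    rw [hv] at h1
    have h2 := congrArg (fun a : A => a.1 z) h1
    simp [hx] at h2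
    exact eq_inv_of_mul_eq_one_right h2
  have hnorm : ∀ (l : ℝ), 0 ≤ l → l ≤ T → ∀ v : Aˣ, (v : A) = 1 - (l : ℂ) • x →
      ‖((v⁻¹ : Aˣ) : A)‖ ≤ B := by
    intro l hl hlT v hv
    change ‖((v⁻¹ : Aˣ) : A).1‖ ≤ B
    rw [ContinuousMap.norm_le _ hB.le]
    intro z
    rw [hinv l v hv z, norm_inv]
    have h := hlow l hl hlT z z.2
    have h0 : 0 < ‖1 - (l : ℂ) * (z : ℂ)‖ := by
      rcases (norm_nonneg (1 - (l : ℂ) * (z : ℂ))).eq_or_lt with h1 | h1
      · rw [← h1, mul_zero] at h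
        exact absurd h (by norm_num)
      · exact h1
    rw [inv_le_iff_one_le_mul₀ h0]
    exact h
  have hxn : ‖x‖ ≤ 1 := by
    change ‖x.1‖ ≤ 1
    rw [ContinuousMap.norm_le _ (by positivity)]
    intro z
    simpa [hx] using hK1 z z.2
  have hstep : ∀ (l d : ℝ), 0 ≤ l → l ≤ T → 0 ≤ d → d * B < 1 → IsUnit (1 - (l : ℂ) • x) →
      IsUnit (1 - ((l + d : ℝ) : ℂ) • x) := by
    intro l d hl hlT hd hdc ⟨v, hv⟩
    have h1 := hnorm l hl hlT v hv
    have h2 : ‖((d : ℂ) • x) * ((v⁻¹ : Aˣ) : A)‖ < 1 := by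
      calc _ ≤ ‖((d : ℂ) • x)‖ * ‖((v⁻¹ : Aˣ) : A)‖ := norm_mul_le _ _
        _ ≤ d * B := by
          gcongr
          rw [norm_smul, Complex.norm_real, Real.norm_of_nonneg hd]
          exact mul_le_of_le_one_right hd hxn
        _ < 1 := hdc
    have h3 : 1 - ((l + d : ℝ) : ℂ) • x = (v : A) * (1 - ((d : ℂ) • x) * ((v⁻¹ : Aˣ) : A)) := by
      rw [mul_sub, mul_one, mul_comm ((d : ℂ) • x), ← mul_assoc, v.mul_inv, one_mul, hv]
      push_cast
      rw [add_smul]; abel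
    rw [h3]
    exact v.isUnit.mul (Units.oneSub _ h2).isUnit
  have hall : ∀ (d : ℝ), 0 ≤ d → d * B < 1 → ∀ k : ℕ, (k : ℝ) * d ≤ T →
      IsUnit (1 - (((k : ℝ) * d : ℝ) : ℂ) • x) := by
    intro d hd hdc k
    induction k with
    | zero => intro _; simp
    | succ k ih =>
      intro hk
      push_cast at hk
      have hk' : (k : ℝ) * d ≤ T := by linarith
      have := hstep (k * d) d (by positivity) hk' hd hdc (ih hk')
      convert this using 4
      push_cast; ring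
  obtain ⟨k, hk⟩ := exists_nat_gt (T * B)
  have hk0 : (0 : ℝ) < k := lt_of_le_of_lt (by positivity) hk
  have hu := hall (T / k) (by positivity) (by
    rw [div_mul_eq_mul_div, div_lt_one hk0]
    exact hk) k (by rw [mul_div_cancel₀ _ hk0.ne'])
  rw [mul_div_cancel₀ _ hk0.ne'] at hu
  obtain ⟨v, hv⟩ := hu
  have hmem : ((v⁻¹ : Aˣ) : A).1 ∈ closure (polynomialFunctions K : Set C(K, ℂ)) := by
    exact ((v⁻¹ : Aˣ) : A).2
  rw [Metric.mem_closure_iff] at hmem
  obtain ⟨b, hb, hd⟩ := hmem ε hε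
  obtain ⟨p, -, rfl⟩ := hb
  refine ⟨p, fun z hz => ?_⟩
  rw [dist_comm, dist_eq_norm, ContinuousMap.norm_lt_iff _ hε] at hd
  have := hd ⟨z, hz⟩
  rw [ContinuousMap.sub_apply, hinv T v hv ⟨z, hz⟩] at this
  exact this.le

end Pool.Agent.Run7.h228.RZ
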